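import Pool.Agent.Helper24.HR.FNUM
import Pool.Agent.Helper85.RL.Stmts3

/-! CNUM: the numbers of the reduction to the core. -/

set_option autoImplicit false

namespace Pool.Helper31.RL

open Pool.Helper16.HR Pool.Helper85.RL

theorem cnum_exp (h : ℕ) : 2 * h ^ 2 + 2 * h + 6 ≤ 2 ^ (3 * h + 9) := by
  have h1 : h ^ 2 ≤ 8 ^ h := by
    calc h ^ 2 ≤ (2 ^ h) ^ 2 := Nat.pow_le_pow_left Nat.lt_two_pow_self.le 2
      _ = 4 ^ h := by rw [← pow_mul, mul_comm, pow_mul]; norm_num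
      _ ≤ 8 ^ h := Nat.pow_le_pow_left (by norm_num) h
  have h2 : h ≤ 8 ^ h := by
    calc h ≤ 2 ^ h := Nat.lt_two_pow_self.le
      _ ≤ 8 ^ h := Nat.pow_le_pow_left (by norm_num) h
  have h3 : 1 ≤ 8 ^ h := Nat.one_le_pow _ _ (by omega)
  have h4 : 2 ^ (3 * h + 9) = 512 * 8 ^ h := by
    rw [pow_add, pow_mul]
    norm_num
    ring
  rw [h4]
  omega

theorem cnum_a (h : ℕ) : ((h ^ h + 1) * (h + 1) + 2) ^ 2 ≤ 2 ^ (2 * h ^ 2 + 2 * h + 6) := by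
  have h1 : h ^ h ≤ 2 ^ (h ^ 2) := by
    calc h ^ h ≤ (2 ^ h) ^ h := Nat.pow_le_pow_left Nat.lt_two_pow_self.le h
      _ = 2 ^ (h ^ 2) := by rw [← pow_mul, pow_two]
  have h2 : h + 1 ≤ 2 ^ h := Nat.lt_two_pow_self
  have h3 : 1 ≤ 2 ^ (h ^ 2) := Nat.one_le_two_pow
  have h4 : 1 ≤ 2 ^ h := Nat.one_le_two_pow
  have h5 : (h ^ h + 1) * (h + 1) ≤ (2 * 2 ^ (h ^ 2)) * 2 ^ h :=
    Nat.mul_le_mul (by omega) h2
  have h6 : 1 ≤ 2 ^ (h ^ 2) * 2 ^ h := Nat.mul_pos (by omega) (by omega)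
  have h7 : (h ^ h + 1) * (h + 1) + 2 ≤ 2 ^ (h ^ 2 + h + 3) := by
    have h8 : 2 ^ (h ^ 2 + h + 3) = 8 * (2 ^ (h ^ 2) * 2 ^ h) := by
      rw [pow_add, pow_add]
      ring
    rw [h8]
    nlinarith
  calc ((h ^ h + 1) * (h + 1) + 2) ^ 2 ≤ (2 ^ (h ^ 2 + h + 3)) ^ 2 :=
        Nat.pow_le_pow_left h7 2
    _ = 2 ^ (2 * h ^ 2 + 2 * h + 6) := by rw [← pow_mul]; congr 1; ring

theorem CNUM : ST_CNUM := by
  intro l h c hl hc
  obtain ⟨i, hi⟩ : ∃ i, i = 2 ^ (3 * h + 9) * c := ⟨_, rfl⟩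
  have hi2 : 2 ^ (3 * h + 10) * c = 2 * i := by rw [hi, pow_succ]; ring
  rw [← hi, hi2]
  obtain ⟨Y, hY⟩ : ∃ Y, Y = Ack l i := ⟨_, rfl⟩
  rw [← hY]
  have hpi : 2 ^ (3 * h + 9) ≤ i := by
    rw [hi]
    exact Nat.le_mul_of_pos_right _ (by omega)
  have hi1 : 1 ≤ i := le_trans Nat.one_le_two_pow hpi
  have hYi : 2 ^ i ≤ Y := by
    rw [hY]
    exact fnum_ack l i
  have hbig : 2 ^ Y ≤ Ack l (2 * i) := by
    refine le_trans ?_ (fnum_mono l (show i + 1 ≤ 2 * i by omega))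
    obtain ⟨l', rfl⟩ : ∃ l', l = l' + 1 := ⟨l - 1, by omega⟩
    rw [fnum_A2 l' i, ← hY]
    exact fnum_ack l' Y
  have h1 := cnum_exp h
  have hA : ((h ^ h + 1) * (h + 1) + 2) ^ 2 ≤ Y := by
    refine (cnum_a h).trans (le_trans ?_ hYi)
    exact Nat.pow_le_pow_right (by omega) (h1.trans hpi)
  have hh : h ^ 2 ≤ Y := by
    refine le_trans ?_ hA
    refine Nat.pow_le_pow_left ?_ 2
    nlinarith [Nat.zero_le (h ^ h * (h + 1))]
  have hY64 : 64 ≤ Y := by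
    refine le_trans ?_ hYi
    calc 64 = 2 ^ 6 := by norm_num
      _ ≤ 2 ^ i := Nat.pow_le_pow_right (by omega) (by omega)
  have hpow := fnum_pow Y ((h ^ h + 1) * (h + 1) + 2) hA hY64
  have hexp : (h ^ h + 1) * (h + 1) = (h ^ h + 1) * h + (h ^ h + 1) := by ring
  have hfin : ∀ t : ℕ, t < (h ^ h + 1) * (h + 1) + 2 → Y ^ t < Ack l (2 * i) := fun t ht =>
    lt_of_lt_of_le (Nat.pow_lt_pow_right (by omega) ht) (hpow.trans hbig)
  constructor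
  · refine lt_of_le_of_lt ?_ (hfin (h ^ h + 1) (by omega))
    rw [pow_succ, mul_comm]
    exact Nat.mul_le_mul_left _ (by omega)
  · refine lt_of_le_of_lt ?_ (hfin ((h ^ h + 1) * h) (by omega))
    rw [pow_mul]
    refine Nat.pow_le_pow_left ?_ h
    rw [pow_succ, mul_comm]
    exact Nat.mul_le_mul_left _ hh

end Pool.Helper31.RL
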